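import Pool.Agent.helper8.GD.Spec

/-!
# GD, E9: major arcs, level `< 1/2`
-/

set_option autoImplicit false

namespace GD

open Finset ArithmeticFunction
open Pool.Agent.helper74.TG (ee gb)

lemma E9_norm_ee (x : ℝ) : ‖ee x‖ = 1 := by
  unfold ee
  rw [show (2 * (Real.pi : ℂ) * x * Complex.I) = ((2 * Real.pi * x : ℝ) : ℂ) * Complex.I by
    push_cast; ring]
  exact Complex.norm_exp_ofReal_mul_I _

lemma E9_ee_add (x y : ℝ) : ee (x + y) = ee x * ee y := by
  unfold ee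
  rw [← Complex.exp_add]
  congr 1
  push_cast
  ring

lemma E9_ee_int (k : ℤ) : ee (k : ℝ) = 1 := by
  unfold ee
  rw [Complex.exp_eq_one_iff]
  exact ⟨k, by push_cast; ring⟩

lemma E9_ee_sub (h : ℝ) : ‖ee h - 1‖ ≤ 2 * Real.pi * |h| := by
  unfold ee
  have h1 := Real.norm_exp_I_mul_ofReal_sub_one_le (x := 2 * Real.pi * h)
  rw [show (2 * (Real.pi : ℂ) * h * Complex.I) = Complex.I * ((2 * Real.pi * h : ℝ) : ℂ) by
    push_cast; ring]
  refine h1.trans (le_of_eq ?_)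
  rw [Real.norm_eq_abs, abs_mul, abs_of_pos (by positivity : (0 : ℝ) < 2 * Real.pi)]

lemma E9_ps_eq (g : ℕ → ℂ) (β : ℝ) (X : ℕ) :
    ∑ n ∈ Ioc 0 X, g n * ee (n * β) = (∑ n ∈ Ioc 0 X, g n) * ee (X * β) -
      ∑ t ∈ range X, (∑ n ∈ Ioc 0 t, g n) * (ee (((t + 1 : ℕ) : ℝ) * β) - ee (t * β)) := by
  induction X with
  | zero => simp
  | succ X ih =>
    rw [Finset.sum_Ioc_succ_top (by omega), Finset.sum_Ioc_succ_top (by omega), sum_range_succ, ih]
    ring

/-- partial summation -/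
lemma E9_ps (g : ℕ → ℂ) (β : ℝ) (X : ℕ) :
    ‖∑ n ∈ Ioc 0 X, g n * ee (n * β)‖ ≤ ‖∑ n ∈ Ioc 0 X, g n‖ +
      2 * Real.pi * |β| * ∑ t ∈ range X, ‖∑ n ∈ Ioc 0 t, g n‖ := by
  rw [E9_ps_eq, mul_sum]
  refine (norm_sub_le _ _).trans (add_le_add ?_ ((norm_sum_le _ _).trans
    (sum_le_sum fun t _ => ?_)))
  · rw [norm_mul, E9_norm_ee, mul_one]
  · rw [norm_mul, mul_comm]
    refine mul_le_mul_of_nonneg_right ?_ (norm_nonneg _)
    have e : ee (((t + 1 : ℕ) : ℝ) * β) - ee (t * β) = ee (t * β) * (ee β - 1) := by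
      rw [mul_sub, ← E9_ee_add, mul_one]
      congr 2
      push_cast
      ring
    rw [e, norm_mul, E9_norm_ee, one_mul]
    exact E9_ee_sub β

/-- the sum over a class, split modulo `q` -/
lemma E9_res (f : ℕ → ℝ) (a : ℤ) (q d c t : ℕ) (hq : 0 < q) :
    ‖∑ n ∈ Ioc 0 t with n ≡ c [MOD d], (f n : ℂ) * ee (n * (a / q))‖ ≤
      ∑ b ∈ range q, |∑ n ∈ Ioc 0 t with n ≡ c [MOD d] ∧ n % q = b, f n| := by
  have h1 : ∑ n ∈ Ioc 0 t with n ≡ c [MOD d], (f n : ℂ) * ee (n * (a / q)) =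
      ∑ b ∈ range q, ∑ n ∈ Ioc 0 t with n ≡ c [MOD d] ∧ n % q = b,
        (f n : ℂ) * ee (n * (a / q)) := by
    rw [← sum_fiberwise_of_maps_to (g := fun n => n % q) (t := range q)
      (fun n _ => mem_range.2 (Nat.mod_lt _ hq))]
    refine sum_congr rfl fun b _ => ?_
    rw [filter_filter]
  rw [h1]
  refine (norm_sum_le _ _).trans (sum_le_sum fun b _ => ?_)
  have hq0 : (q : ℝ) ≠ 0 := by positivity
  have h2 : ∀ n ∈ (Ioc 0 t).filter (fun n => n ≡ c [MOD d] ∧ n % q = b),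
      (f n : ℂ) * ee (n * (a / q)) = (f n : ℂ) * ee (b * (a / q)) := by
    intro n hn
    have hb : n % q = b := (mem_filter.1 hn).2.2
    have e0 : (n : ℝ) = q * (n / q : ℕ) + b := by
      rw [← hb]
      exact_mod_cast (Nat.div_add_mod n q).symm
    have e : (n : ℝ) * (a / q) = b * (a / q) + ((((n / q : ℕ) : ℤ) * a : ℤ) : ℝ) := by
      rw [Int.cast_mul, Int.cast_natCast, e0]
      field_simp
      ring
    rw [e, E9_ee_add, E9_ee_int, mul_one]
  rw [sum_congr rfl h2, ← sum_mul, norm_mul, E9_norm_ee, mul_one, ← Complex.ofReal_sum,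
    Complex.norm_real, Real.norm_eq_abs]

lemma E9_class (f : ℕ → ℝ) (t d q c b : ℕ) (W : ℕ → ℝ) (hW0 : ∀ m, 0 ≤ W m)
    (hW : ∀ m c', 0 < m → Nat.Coprime c' m →
      |∑ n ∈ Ioc 0 t with n ≡ c' [MOD m], f n| ≤ W m)
    (hd : 0 < d) (hq : 0 < q) (hc : Nat.Coprime c d) (hb : Nat.Coprime b q) :
    |∑ n ∈ Ioc 0 t with n ≡ c [MOD d] ∧ n % q = b, f n| ≤ W (Nat.lcm d q) := by
  rcases ((Ioc 0 t).filter (fun n => n ≡ c [MOD d] ∧ n % q = b)).eq_empty_or_nonempty with
    h | ⟨n₀, hn₀⟩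
  · rw [h]
    simpa using hW0 _
  · rw [mem_filter] at hn₀
    obtain ⟨-, hn1, hn2⟩ := hn₀
    have e : (Ioc 0 t).filter (fun n => n ≡ c [MOD d] ∧ n % q = b) =
        (Ioc 0 t).filter (fun n => n ≡ n₀ [MOD Nat.lcm d q]) := by
      refine filter_congr fun n _ => ?_
      constructor
      · rintro ⟨h1, h2⟩
        have h3 : n ≡ n₀ [MOD d] := h1.trans hn1.symm
        have h4 : n ≡ n₀ [MOD q] := by
          show n % q = n₀ % q
          rw [h2, hn2]
        rw [Nat.modEq_iff_dvd, Int.natCast_dvd] at h3 h4 ⊢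
        exact Nat.lcm_dvd h3 h4
      · intro h1
        have h3 : n ≡ n₀ [MOD d] := h1.of_dvd (Nat.dvd_lcm_left d q)
        have h4 : n ≡ n₀ [MOD q] := h1.of_dvd (Nat.dvd_lcm_right d q)
        exact ⟨h3.trans hn1, by rw [← hn2]; exact h4⟩
    rw [e]
    refine hW _ _ (Nat.lcm_pos hd hq) ?_
    have h1 : Nat.Coprime n₀ d := by
      rw [Nat.Coprime, hn1.gcd_eq]
      exact hc
    have h2 : Nat.Coprime n₀ q := by
      have h3 : n₀ ≡ b [MOD q] := by
        show n₀ % q = b % q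
        rw [← hn2, Nat.mod_mod]
      rw [Nat.Coprime, h3.gcd_eq]
      exact hb
    exact Nat.Coprime.coprime_dvd_right (Nat.lcm_dvd_mul d q) (Nat.Coprime.mul_right h1 h2)

lemma E9_fiber (W : ℕ → ℝ) (hW0 : ∀ m, 0 ≤ W m) (D q : ℕ) (hq : 0 < q) :
    ∑ d ∈ Icc 1 D, W (Nat.lcm d q) ≤ q * ∑ m ∈ Icc 1 (D * q), W m := by
  have hmaps : ∀ d ∈ Icc 1 D, Nat.lcm d q ∈ Icc 1 (D * q) := by
    intro d hd
    rw [mem_Icc] at hd ⊢
    refine ⟨Nat.lcm_pos (by omega) hq, ?_⟩
    exact (Nat.le_of_dvd (Nat.mul_pos (by omega) hq) (Nat.lcm_dvd_mul d q)).trans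
      (Nat.mul_le_mul_right _ hd.2)
  rw [← sum_fiberwise_of_maps_to hmaps, mul_sum]
  refine sum_le_sum fun m hm => ?_
  have e : ∀ d ∈ (Icc 1 D).filter (fun d => Nat.lcm d q = m), W (Nat.lcm d q) = W m := by
    intro d hd
    rw [(mem_filter.1 hd).2]
  rw [sum_congr rfl e, sum_const, nsmul_eq_mul]
  refine mul_le_mul_of_nonneg_right ?_ (hW0 m)
  have hcard : #((Icc 1 D).filter (fun d => Nat.lcm d q = m)) ≤ #(Icc 1 q) := by
    refine card_le_card_of_injOn (fun d => m / d) ?_ ?_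
    · intro d hd
      rw [mem_coe, mem_filter, mem_Icc] at hd
      obtain ⟨hd1, rfl⟩ := hd
      have hd0 : 0 < d := by omega
      rw [mem_coe, mem_Icc]
      refine ⟨Nat.div_pos (Nat.le_of_dvd (Nat.lcm_pos hd0 hq) (Nat.dvd_lcm_left d q)) hd0, ?_⟩
      refine Nat.div_le_of_le_mul ?_
      exact Nat.le_of_dvd (Nat.mul_pos hd0 hq) (Nat.lcm_dvd_mul d q)
    · intro d hd d' hd' h
      rw [mem_coe, mem_filter, mem_Icc] at hd hd'
      have h1 : d ∣ m := hd.2 ▸ Nat.dvd_lcm_left d q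
      have h2 : d' ∣ m := hd'.2 ▸ Nat.dvd_lcm_left d' q
      have hm0 : m ≠ 0 := by
        rw [mem_Icc] at hm
        omega
      have h3 : m / d = m / d' := h
      obtain ⟨k, hk⟩ := h1
      obtain ⟨k', hk'⟩ := h2
      have hd0 : 0 < d := by omega
      have hd0' : 0 < d' := by omega
      have e1 : m / d = k := by rw [hk, Nat.mul_div_cancel_left _ hd0]
      have e2 : m / d' = k' := by rw [hk', Nat.mul_div_cancel_left _ hd0']
      have e3 : k = k' := by rw [← e1, ← e2, h3]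
      subst e3
      have hk0 : 0 < k := Nat.pos_of_ne_zero fun h0 => hm0 (by rw [hk, h0, mul_zero])
      exact Nat.eq_of_mul_eq_mul_right hk0 (hk.symm.trans hk')
  rw [Nat.card_Icc, Nat.add_sub_cancel] at hcard
  exact_mod_cast hcard

/-- The contribution of the prime powers not prime to `q`. -/
lemma E9_noncoprime (q u : ℕ) (hq : 0 < q) :
    ∑ n ∈ Ioc 0 u with ¬ Nat.Coprime n q, vonMangoldt n ≤
      q * (2 * Real.log u + 1) * Real.log u := by
  classical
  rcases Nat.eq_zero_or_pos u with rfl | hu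
  · simp
  have hlogu : 0 ≤ Real.log u := Real.log_natCast_nonneg u
  set T : Finset ℕ := (q.primeFactors ×ˢ range (Nat.log 2 u + 1)).image (fun p => p.1 ^ p.2) with hT
  have hcard : (T.card : ℝ) ≤ q * (2 * Real.log u + 1) := by
    have h1 : T.card ≤ q.primeFactors.card * (Nat.log 2 u + 1) := by
      refine card_image_le.trans ?_
      rw [card_product, card_range]
    have h2 : q.primeFactors.card ≤ q := by
      calc q.primeFactors.card ≤ (Ioc 0 q).card := card_le_card (fun p hp => by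
            rw [mem_Ioc]
            exact ⟨Nat.pos_of_mem_primeFactors hp, Nat.le_of_mem_primeFactors hp⟩)
        _ = q := by simp
    have h3 : (Nat.log 2 u : ℝ) ≤ 2 * Real.log u := by
      have h4 : (Nat.log 2 u : ℝ) * Real.log 2 ≤ Real.log u := by
        rw [← Real.log_pow]
        apply Real.log_le_log (by positivity)
        exact_mod_cast Nat.pow_log_le_self 2 hu.ne'
      have h5 := Real.log_two_gt_d9
      have h6 : (0 : ℝ) ≤ Nat.log 2 u := Nat.cast_nonneg _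
      nlinarith
    calc (T.card : ℝ) ≤ ((q.primeFactors.card * (Nat.log 2 u + 1) : ℕ) : ℝ) := by exact_mod_cast h1
      _ = q.primeFactors.card * (Nat.log 2 u + 1 : ℝ) := by push_cast; ring
      _ ≤ q * (2 * Real.log u + 1) := by
        have : (q.primeFactors.card : ℝ) ≤ q := by exact_mod_cast h2
        gcongr
  have hsub : ∀ n ∈ (Ioc 0 u).filter (fun n => ¬ Nat.Coprime n q), n ∉ T → vonMangoldt n = 0 := by
    intro n hn hnT
    rw [mem_filter, mem_Ioc] at hn
    by_contra hne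
    rw [← ne_eq, vonMangoldt_ne_zero_iff] at hne
    obtain ⟨p, k, hp, hk, rfl⟩ := (isPrimePow_nat_iff _).1 hne
    apply hnT
    rw [hT, mem_image]
    refine ⟨(p, k), ?_, rfl⟩
    rw [mem_product, Nat.mem_primeFactors, mem_range]
    refine ⟨⟨hp, ?_, hq.ne'⟩, ?_⟩
    · by_contra hd
      apply hn.2
      exact Nat.Coprime.pow_left _ ((Nat.Prime.coprime_iff_not_dvd hp).2 hd)
    · rw [Nat.lt_succ_iff]
      apply Nat.le_log_of_pow_le (by norm_num)
      exact (Nat.pow_le_pow_left hp.two_le k).trans hn.1.2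
  calc ∑ n ∈ Ioc 0 u with ¬ Nat.Coprime n q, vonMangoldt n
      = ∑ n ∈ (Ioc 0 u).filter (fun n => ¬ Nat.Coprime n q) with n ∈ T, vonMangoldt n := by
        symm
        apply sum_filter_of_ne
        intro n hn hne
        by_contra h
        exact hne (hsub n hn h)
    _ ≤ ∑ n ∈ (Ioc 0 u).filter (fun n => ¬ Nat.Coprime n q) with n ∈ T, Real.log u := by
        apply sum_le_sum
        intro n hn
        rw [mem_filter, mem_filter, mem_Ioc] at hn
        refine vonMangoldt_le_log.trans (Real.log_le_log ?_ ?_)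
        · exact_mod_cast hn.1.1.1
        · exact_mod_cast hn.1.1.2
    _ ≤ T.card * Real.log u := by
        rw [sum_const, nsmul_eq_mul]
        refine mul_le_mul_of_nonneg_right ?_ hlogu
        exact_mod_cast card_le_card fun n hn => (mem_filter.1 hn).2
    _ ≤ q * (2 * Real.log u + 1) * Real.log u :=
        mul_le_mul_of_nonneg_right hcard hlogu

lemma E9_Lw (w q n : ℕ) (hq : 0 < q) (hqw : q ≤ w) (h : ¬ Nat.Coprime n q) : Lw w n = 0 := by
  unfold Lw
  rw [if_neg]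
  intro hall
  obtain ⟨l, hl, h1, h2⟩ := Nat.Prime.not_coprime_iff_dvd.1 h
  refine hall l ?_ h1
  unfold Ps
  rw [mem_filter, mem_Icc]
  exact ⟨⟨hl.one_lt.le, (Nat.le_of_dvd hq h2).trans hqw⟩, hl⟩

/-- the sum over the moduli, for fixed `t` -/
lemma E9_fixed (w t D q : ℕ) (a : ℤ) (c : ℕ → ℕ) (hc : Cls c) (hq : 0 < q) (hqw : q ≤ w)
    (W : ℕ → ℝ) (hW0 : ∀ m, 0 ≤ W m)
    (hW : ∀ m c', 0 < m → Nat.Coprime c' m →
      |∑ n ∈ Ioc 0 t with n ≡ c' [MOD m], (vonMangoldt n - Lw w n)| ≤ W m) :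
    ∑ d ∈ Icc 1 D, ‖∑ n ∈ Ioc 0 t with n ≡ c d [MOD d],
      ((vonMangoldt n - Lw w n : ℝ) : ℂ) * ee (n * (a / q))‖ ≤
      q * (q * ∑ m ∈ Icc 1 (D * q), W m) + D * (q * (2 * Real.log t + 1) * Real.log t) := by
  set f : ℕ → ℝ := fun n => vonMangoldt n - Lw w n with hf
  have key : ∀ d ∈ Icc 1 D, ‖∑ n ∈ Ioc 0 t with n ≡ c d [MOD d], (f n : ℂ) * ee (n * (a / q))‖ ≤
      q * W (Nat.lcm d q) + q * (2 * Real.log t + 1) * Real.log t := by
    intro d hd
    have hd0 : 0 < d := (mem_Icc.1 hd).1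
    refine (E9_res f a q d (c d) t hq).trans ?_
    rw [← sum_filter_add_sum_filter_not (range q) (fun b => Nat.Coprime b q)]
    refine add_le_add ?_ ?_
    · calc ∑ b ∈ range q with Nat.Coprime b q,
            |∑ n ∈ Ioc 0 t with n ≡ c d [MOD d] ∧ n % q = b, f n|
          ≤ ∑ b ∈ range q with Nat.Coprime b q, W (Nat.lcm d q) := by
            refine sum_le_sum fun b hb => ?_
            exact E9_class f t d q (c d) b W hW0 hW hd0 hq (hc d hd0) (mem_filter.1 hb).2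
        _ ≤ q * W (Nat.lcm d q) := by
            rw [sum_const, nsmul_eq_mul]
            refine mul_le_mul_of_nonneg_right ?_ (hW0 _)
            have := card_filter_le (range q) (fun b => Nat.Coprime b q)
            rw [card_range] at this
            exact_mod_cast this
    · calc ∑ b ∈ range q with ¬ Nat.Coprime b q,
            |∑ n ∈ Ioc 0 t with n ≡ c d [MOD d] ∧ n % q = b, f n|
          ≤ ∑ b ∈ range q with ¬ Nat.Coprime b q,
            ∑ n ∈ (Ioc 0 t).filter (fun n => ¬ Nat.Coprime n q) with n % q = b, |f n| := by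
            refine sum_le_sum fun b hb => ?_
            refine (abs_sum_le_sum_abs _ _).trans ?_
            refine sum_le_sum_of_subset_of_nonneg ?_ fun n _ _ => abs_nonneg _
            intro n hn
            rw [mem_filter] at hn hb
            rw [mem_filter, mem_filter]
            refine ⟨⟨hn.1, fun h => hb.2 ?_⟩, hn.2.2⟩
            have h3 : n ≡ b [MOD q] := by
              show n % q = b % q
              rw [← hn.2.2, Nat.mod_mod]
            rw [Nat.Coprime, ← h3.gcd_eq]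
            exact h
        _ ≤ ∑ b ∈ range q,
            ∑ n ∈ (Ioc 0 t).filter (fun n => ¬ Nat.Coprime n q) with n % q = b, |f n| :=
            sum_le_sum_of_subset_of_nonneg (filter_subset _ _)
              fun b _ _ => sum_nonneg fun n _ => abs_nonneg _
        _ = ∑ n ∈ (Ioc 0 t).filter (fun n => ¬ Nat.Coprime n q), |f n| :=
            sum_fiberwise_of_maps_to (g := fun n => n % q)
              (fun n _ => mem_range.2 (Nat.mod_lt _ hq)) _
        _ = ∑ n ∈ Ioc 0 t with ¬ Nat.Coprime n q, vonMangoldt n := by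
            refine sum_congr rfl fun n hn => ?_
            simp only [hf]
            rw [E9_Lw w q n hq hqw (mem_filter.1 hn).2, sub_zero, abs_of_nonneg vonMangoldt_nonneg]
        _ ≤ _ := E9_noncoprime q t hq
  refine (sum_le_sum key).trans ?_
  rw [sum_add_distrib, sum_const, Nat.card_Icc, Nat.add_sub_cancel, nsmul_eq_mul, ← mul_sum]
  exact add_le_add (mul_le_mul_of_nonneg_left (E9_fiber W hW0 D q hq) (by positivity)) le_rfl

/-- the worst classes -/
lemma E9_worst (f : ℕ → ℝ) (t : ℕ) : ∃ cs : ℕ → ℕ, Cls cs ∧ ∀ m c', 0 < m → Nat.Coprime c' m →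
    |∑ n ∈ Ioc 0 t with n ≡ c' [MOD m], f n| ≤ |∑ n ∈ Ioc 0 t with n ≡ cs m [MOD m], f n| := by
  have h : ∀ m : ℕ, ∃ c : ℕ, 0 < m → Nat.Coprime c m ∧ ∀ c' : ℕ, Nat.Coprime c' m →
      |∑ n ∈ Ioc 0 t with n ≡ c' [MOD m], f n| ≤ |∑ n ∈ Ioc 0 t with n ≡ c [MOD m], f n| := by
    intro m
    rcases Nat.eq_zero_or_pos m with rfl | hm
    · exact ⟨0, fun h => absurd h (lt_irrefl 0)⟩
    set S : Finset ℕ := (range m).filter (fun c => Nat.Coprime c m) with hS
    have hne : S.Nonempty := by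
      refine ⟨1 % m, ?_⟩
      rw [hS, mem_filter, mem_range]
      refine ⟨Nat.mod_lt _ hm, ?_⟩
      rw [Nat.Coprime, (Nat.mod_modEq 1 m).gcd_eq]
      exact Nat.coprime_one_left m
    obtain ⟨c, hc, hmax⟩ := S.exists_max_image
      (fun c => |∑ n ∈ Ioc 0 t with n ≡ c [MOD m], f n|) hne
    refine ⟨c, fun _ => ⟨(mem_filter.1 hc).2, fun c' hc' => ?_⟩⟩
    have h1 : c' % m ∈ S := by
      rw [hS, mem_filter, mem_range]
      refine ⟨Nat.mod_lt _ hm, ?_⟩
      rw [Nat.Coprime, (Nat.mod_modEq c' m).gcd_eq]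
      exact hc'
    have h2 := hmax _ h1
    have e : (Ioc 0 t).filter (fun n => n ≡ c' [MOD m]) =
        (Ioc 0 t).filter (fun n => n ≡ c' % m [MOD m]) := by
      refine filter_congr fun n _ => ?_
      exact ⟨fun h => h.trans (Nat.mod_modEq c' m).symm, fun h => h.trans (Nat.mod_modEq c' m)⟩
    rw [e]
    exact h2
  choose cs hcs using h
  exact ⟨cs, fun m hm => (hcs m hm).1, fun m c' hm hc' => (hcs m hm).2 c' hc'⟩

lemma E9_logpow (k : ℕ) (ε : ℝ) (hε : 0 < ε) : ∃ X₀ : ℕ, ∀ X : ℕ, X₀ ≤ X →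
    Real.log X ^ k ≤ (X : ℝ) ^ ε := by
  have h1 := (isLittleO_log_rpow_rpow_atTop (k : ℝ) hε).bound one_pos
  obtain ⟨x₀, h⟩ := Filter.eventually_atTop.1 h1
  refine ⟨max ⌈x₀⌉₊ 1, fun X hX => ?_⟩
  have hX1 : (1 : ℝ) ≤ X := by exact_mod_cast (le_max_right _ _).trans hX
  have hX0 : x₀ ≤ X := (Nat.le_ceil x₀).trans (by exact_mod_cast (le_max_left _ _).trans hX)
  have := h X hX0
  rwa [Real.norm_of_nonneg (Real.rpow_nonneg (Real.log_nonneg hX1) _), one_mul,
    Real.norm_of_nonneg (Real.rpow_nonneg (by linarith) _), Real.rpow_natCast] at this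

lemma E9_loglarge (M : ℝ) : ∃ X₀ : ℕ, ∀ X : ℕ, X₀ ≤ X → M ≤ Real.log X := by
  refine ⟨⌈Real.exp M⌉₊, fun X hX => ?_⟩
  have h1 : Real.exp M ≤ X := (Nat.le_ceil _).trans (by exact_mod_cast hX)
  rwa [Real.le_log_iff_exp_le (lt_of_lt_of_le (Real.exp_pos _) h1)]

theorem E9 (hBV : BV_stmt) (hE11 : E11_stmt) : E9_stmt := by
  intro θ hθ hθ2 A B
  set ε : ℝ := 1 / 4 - θ / 2 with hε
  have hε0 : 0 < ε := by rw [hε]; linarith
  have hε1 : ε < 1 / 2 := by rw [hε]; linarith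
  set A1 : ℕ := A + 3 * B + 1 with hA1
  obtain ⟨C₁, hC₁⟩ := hE11 (1 / 2 - ε) (by linarith) (by linarith) A1
  refine ⟨max C₁ B, fun C hC => ?_⟩
  obtain ⟨X1, hX1⟩ := hC₁ C ((le_max_left _ _).trans hC)
  obtain ⟨X2, hX2⟩ := hBV ε hε0 hε1 A1
  obtain ⟨X3, hX3⟩ := E9_logpow B ε hε0
  obtain ⟨X4, hX4⟩ := E9_logpow (A + 2 * B + 3) (1 / 2) (by norm_num)
  obtain ⟨X5, hX5⟩ := E9_loglarge 48
  refine ⟨max (max X1 X2) (max (max X3 X4) (max X5 1)), fun X hX => ?_⟩
  have g1 : X1 ≤ X := le_trans (by simp) hX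
  have g2 : X2 ≤ X := le_trans (by simp) hX
  have g3 := hX3 X (le_trans (by simp) hX)
  have g4 := hX4 X (le_trans (by simp) hX)
  have g5 := hX5 X (le_trans (by simp) hX)
  have gX : 1 ≤ X := le_trans (by simp) hX
  have gXr : (1 : ℝ) ≤ X := by exact_mod_cast gX
  have gX0 : (0 : ℝ) < X := by linarith
  intro α a q hq hqB haq hα c hc
  set L : ℝ := Real.log X with hL
  have hL1 : 1 ≤ L := by linarith
  have hL0 : 0 < L := by linarith
  set D : ℕ := ⌊(X : ℝ) ^ θ⌋₊ with hD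
  have hDle : (D : ℝ) ≤ (X : ℝ) ^ θ := Nat.floor_le (Real.rpow_nonneg gX0.le _)
  have hqw : q ≤ wX X C := by
    unfold wX
    refine Nat.le_floor (hqB.trans ?_)
    exact pow_le_pow_right₀ hL1 ((le_max_right _ _).trans hC)
  have hDq : D * q ≤ ⌊(X : ℝ) ^ (1 / 2 - ε)⌋₊ := by
    refine Nat.le_floor ?_
    push_cast
    calc (D : ℝ) * q ≤ (X : ℝ) ^ θ * (X : ℝ) ^ ε :=
          mul_le_mul hDle (hqB.trans g3) (by positivity) (by positivity)
      _ = (X : ℝ) ^ (1 / 2 - ε) := by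
          rw [← Real.rpow_add gX0]
          congr 1
          rw [hε]
          ring
  -- fixed `t`
  set M₀ : ℝ := 2 * (X * L ^ (2 * B) / L ^ A1) + 3 * ((X : ℝ) ^ θ * L ^ (B + 2)) with hM₀
  have hM₀0 : 0 ≤ M₀ := by positivity
  have hfix : ∀ t : ℕ, t ≤ X → ∑ d ∈ Icc 1 D, ‖∑ n ∈ Ioc 0 t with n ≡ c d [MOD d],
      ((vonMangoldt n - Lw (wX X C) n : ℝ) : ℂ) * ee (n * (a / q))‖ ≤ M₀ := by
    intro t ht
    obtain ⟨cs, hcs, hmax⟩ := E9_worst (fun n => vonMangoldt n - Lw (wX X C) n) t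
    have h1 := E9_fixed (wX X C) t D q a c hc hq hqw
      (fun m => |∑ n ∈ Ioc 0 t with n ≡ cs m [MOD m], (vonMangoldt n - Lw (wX X C) n)|)
      (fun m => abs_nonneg _) hmax
    refine h1.trans ?_
    have h2 : ∑ m ∈ Icc 1 (D * q),
        |∑ n ∈ Ioc 0 t with n ≡ cs m [MOD m], (vonMangoldt n - Lw (wX X C) n)| ≤
        X / L ^ A1 + X / L ^ A1 := by
      calc ∑ m ∈ Icc 1 (D * q),
            |∑ n ∈ Ioc 0 t with n ≡ cs m [MOD m], (vonMangoldt n - Lw (wX X C) n)|
          ≤ ∑ m ∈ Icc 1 ⌊(X : ℝ) ^ (1 / 2 - ε)⌋₊,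
            |∑ n ∈ Ioc 0 t with n ≡ cs m [MOD m], (vonMangoldt n - Lw (wX X C) n)| :=
            sum_le_sum_of_subset_of_nonneg (Icc_subset_Icc_right hDq) fun m _ _ => abs_nonneg _
        _ ≤ ∑ m ∈ Icc 1 ⌊(X : ℝ) ^ (1 / 2 - ε)⌋₊,
            (|∑ n ∈ Ioc 0 t with n ≡ cs m [MOD m], vonMangoldt n - t / (Nat.totient m : ℝ)| +
             |∑ n ∈ Ioc 0 t with n ≡ cs m [MOD m], Lw (wX X C) n - t / (Nat.totient m : ℝ)|) := by
            refine sum_le_sum fun m _ => ?_
            rw [sum_sub_distrib]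
            have := abs_sub_le (∑ n ∈ Ioc 0 t with n ≡ cs m [MOD m], vonMangoldt n)
              (t / (Nat.totient m : ℝ)) (∑ n ∈ Ioc 0 t with n ≡ cs m [MOD m], Lw (wX X C) n)
            rwa [abs_sub_comm (t / (Nat.totient m : ℝ))] at this
        _ ≤ _ := by
            rw [sum_add_distrib]
            exact add_le_add (hX2 X g2 t ht cs hcs) (hX1 X g1 t ht cs hcs)
    have hlt : Real.log t ≤ L := by
      rcases Nat.eq_zero_or_pos t with rfl | h0
      · simp only [Nat.cast_zero, Real.log_zero]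
        exact hL0.le
      · exact Real.log_le_log (by exact_mod_cast h0) (by exact_mod_cast ht)
    have hlt0 : 0 ≤ Real.log t := Real.log_natCast_nonneg t
    have hq0 : (0 : ℝ) ≤ q := by positivity
    refine add_le_add ?_ ?_
    · calc (q : ℝ) * (q * _) ≤ L ^ B * (L ^ B * (X / L ^ A1 + X / L ^ A1)) := by
            refine mul_le_mul hqB (mul_le_mul hqB h2 (sum_nonneg fun m _ => abs_nonneg _)
              (by positivity)) (mul_nonneg hq0 (sum_nonneg fun m _ => abs_nonneg _)) (by positivity)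
        _ = 2 * (X * L ^ (2 * B) / L ^ A1) := by
            rw [two_mul B, pow_add]
            ring
    · calc (D : ℝ) * (q * (2 * Real.log t + 1) * Real.log t)
          ≤ (X : ℝ) ^ θ * (L ^ B * (3 * L) * L) := by
            refine mul_le_mul hDle ?_ (by positivity) (by positivity)
            refine mul_le_mul (mul_le_mul hqB (by linarith) (by positivity) (by positivity)) hlt hlt0
              (by positivity)
        _ = 3 * ((X : ℝ) ^ θ * L ^ (B + 2)) := by
            rw [pow_add]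
            ring
  -- partial summation
  set β : ℝ := α - a / q with hβ
  set g : ℕ → ℕ → ℂ := fun d n => if n ≡ c d [MOD d] then
    ((vonMangoldt n - Lw (wX X C) n : ℝ) : ℂ) * ee (n * (a / q)) else 0 with hg
  have hgs : ∀ d t, ∑ n ∈ Ioc 0 t, g d n = ∑ n ∈ Ioc 0 t with n ≡ c d [MOD d],
      ((vonMangoldt n - Lw (wX X C) n : ℝ) : ℂ) * ee (n * (a / q)) := by
    intro d t
    rw [hg, sum_filter]
  have hSd : ∀ d, Sd X (fun n => vonMangoldt n - Lw (wX X C) n) d (c d) α =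
      ∑ n ∈ Ioc 0 X, g d n * ee (n * β) := by
    intro d
    unfold Sd
    rw [sum_filter]
    refine sum_congr rfl fun n _ => ?_
    simp only [hg]
    split_ifs
    · rw [mul_assoc, ← E9_ee_add]
      congr 2
      rw [hβ]
      ring
    · rw [zero_mul]
  have hsum : ∑ d ∈ Icc 1 D, ‖Sd X (fun n => vonMangoldt n - Lw (wX X C) n) d (c d) α‖ ≤
      (1 + 2 * Real.pi * L ^ B) * M₀ := by
    calc ∑ d ∈ Icc 1 D, ‖Sd X (fun n => vonMangoldt n - Lw (wX X C) n) d (c d) α‖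
        ≤ ∑ d ∈ Icc 1 D, (‖∑ n ∈ Ioc 0 X, g d n‖ +
            2 * Real.pi * |β| * ∑ t ∈ range X, ‖∑ n ∈ Ioc 0 t, g d n‖) := by
          refine sum_le_sum fun d _ => ?_
          rw [hSd]
          exact E9_ps (g d) β X
      _ = ∑ d ∈ Icc 1 D, ‖∑ n ∈ Ioc 0 X, g d n‖ +
            2 * Real.pi * |β| * ∑ t ∈ range X, ∑ d ∈ Icc 1 D, ‖∑ n ∈ Ioc 0 t, g d n‖ := by
          rw [sum_add_distrib, ← mul_sum, sum_comm]
      _ ≤ M₀ + 2 * Real.pi * |β| * ∑ t ∈ range X, M₀ := by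
          refine add_le_add ?_ (mul_le_mul_of_nonneg_left ?_ (by positivity))
          · simp only [hgs]
            exact hfix X le_rfl
          · refine sum_le_sum fun t ht => ?_
            simp only [hgs]
            exact hfix t (mem_range.1 ht).le
      _ ≤ M₀ + 2 * Real.pi * (L ^ B / X) * (X * M₀) := by
          rw [sum_const, card_range, nsmul_eq_mul]
          refine add_le_add le_rfl (mul_le_mul_of_nonneg_right ?_ (by positivity))
          exact mul_le_mul_of_nonneg_left hα (by positivity)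
      _ = (1 + 2 * Real.pi * L ^ B) * M₀ := by
          field_simp
  refine hsum.trans ?_
  have hLB1 : 1 ≤ L ^ B := one_le_pow₀ hL1
  have h8 : 1 + 2 * Real.pi * L ^ B ≤ 8 * L ^ B := by
    have := Real.pi_lt_d2
    nlinarith
  have hXθ : (X : ℝ) ^ θ * (X : ℝ) ^ (1 / 2 : ℝ) ≤ X := by
    rw [← Real.rpow_add gX0]
    calc (X : ℝ) ^ (θ + 1 / 2) ≤ (X : ℝ) ^ (1 : ℝ) :=
          Real.rpow_le_rpow_of_exponent_le gXr (by linarith)
      _ = X := Real.rpow_one _
  have hXθ0 : 0 ≤ (X : ℝ) ^ θ := Real.rpow_nonneg gX0.le _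
  calc (1 + 2 * Real.pi * L ^ B) * M₀ ≤ 8 * L ^ B * M₀ := mul_le_mul_of_nonneg_right h8 hM₀0
    _ = 16 * (X / L ^ A / L) + 24 * ((X : ℝ) ^ θ * L ^ (A + 2 * B + 3)) / L ^ A / L := by
        rw [hM₀, hA1]
        have e1 : L ^ (A + 3 * B + 1) = L ^ A * L ^ (2 * B) * L ^ B * L := by
          rw [show A + 3 * B + 1 = A + 2 * B + B + 1 by ring, pow_succ, pow_add, pow_add]
        have e2 : L ^ (A + 2 * B + 3) = L ^ A * L ^ B * L ^ (B + 2) * L := by
          rw [show A + 2 * B + 3 = A + B + (B + 2) + 1 by ring, pow_succ, pow_add, pow_add]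
        rw [e1, e2]
        field_simp
        ring
    _ ≤ 16 * (X / L ^ A / L) + 24 * X / L ^ A / L := by
        refine add_le_add le_rfl ?_
        refine div_le_div_of_nonneg_right (div_le_div_of_nonneg_right ?_ (by positivity)) hL0.le
        refine mul_le_mul_of_nonneg_left ?_ (by norm_num)
        exact (mul_le_mul_of_nonneg_left g4 hXθ0).trans hXθ
    _ = X / L ^ A * (40 / L) := by ring
    _ ≤ X / L ^ A * 1 := by
        refine mul_le_mul_of_nonneg_left ?_ (by positivity)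
        rw [div_le_one hL0]
        linarith
    _ = X / L ^ A := mul_one _

end GD
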