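import Pool.Agent.helper8.GD.Spec
import Pool.Agent.helper99.MT.AN9L

/-!
# GD, ES: exponential sums with the weights `K^ω(d)`
-/

set_option autoImplicit false

namespace GD

open Finset ArithmeticFunction
open Pool.Agent.helper74.TG (ee gb)
open Pool.Agent.helper39.MT

lemma ES_norm_ee (x : ℝ) : ‖ee x‖ = 1 := by
  unfold ee
  rw [show (2 * (Real.pi : ℂ) * x * Complex.I) = ((2 * Real.pi * x : ℝ) : ℂ) * Complex.I by
    push_cast; ring]
  exact Complex.norm_exp_ofReal_mul_I _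

lemma ES_card (X d c : ℕ) (hd : 0 < d) (hdX : d ≤ X) :
    (#((Ioc 0 X).filter fun n => n ≡ c [MOD d]) : ℝ) ≤ 2 * (X / d) := by
  have hd0 : (0 : ℝ) < d := by exact_mod_cast hd
  have h1 : #((Ioc 0 X).filter fun n => n ≡ c [MOD d]) ≤ X / d + 1 := by
    have h2 : #((Ioc 0 X).filter fun n => n ≡ c [MOD d]) ≤ #(range (X / d + 1)) := by
      refine card_le_card_of_injOn (fun n => n / d) ?_ ?_
      · intro n hn
        rw [mem_coe, mem_filter, mem_Ioc] at hn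
        rw [mem_coe, mem_range]
        exact Nat.lt_succ_of_le (Nat.div_le_div_right hn.1.2)
      · intro n hn n' hn' h
        rw [mem_coe, mem_filter, mem_Ioc] at hn hn'
        have h3 : n % d = n' % d := hn.2.trans hn'.2.symm
        have h4 : n / d = n' / d := h
        rw [← Nat.div_add_mod n d, ← Nat.div_add_mod n' d, h3, h4]
    rwa [card_range] at h2
  have h2 : ((X / d : ℕ) : ℝ) ≤ X / d := Nat.cast_div_le
  have h3 : (1 : ℝ) ≤ X / d := by
    rw [le_div_iff₀ hd0, one_mul]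
    exact_mod_cast hdX
  have h4 : (#((Ioc 0 X).filter fun n => n ≡ c [MOD d]) : ℝ) ≤ ((X / d + 1 : ℕ) : ℝ) := by
    exact_mod_cast h1
  push_cast at h4
  linarith

lemma ES_triv (X : ℕ) (u : ℕ → ℝ) (d c : ℕ) (α M : ℝ) (hd : 0 < d) (hdX : d ≤ X) (hM : 0 ≤ M)
    (hu : ∀ n ∈ Ioc 0 X, |u n| ≤ M) : ‖Sd X u d c α‖ ≤ 2 * (X / d) * M := by
  unfold Sd
  refine (norm_sum_le _ _).trans ?_
  calc ∑ n ∈ (Ioc 0 X).filter (fun n => n ≡ c [MOD d]), ‖(u n : ℂ) * ee (n * α)‖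
      ≤ ∑ n ∈ (Ioc 0 X).filter (fun n => n ≡ c [MOD d]), M := by
        refine sum_le_sum fun n hn => ?_
        rw [norm_mul, ES_norm_ee, mul_one, Complex.norm_real, Real.norm_eq_abs]
        exact hu n (mem_filter.1 hn).1
    _ = #((Ioc 0 X).filter fun n => n ≡ c [MOD d]) * M := by rw [sum_const, nsmul_eq_mul]
    _ ≤ 2 * (X / d) * M := mul_le_mul_of_nonneg_right (ES_card X d c hd hdX) hM

lemma ES_sub (X : ℕ) (u v : ℕ → ℝ) (d c : ℕ) (α : ℝ) :
    ‖Sd X (fun n => u n - v n) d c α‖ ≤ ‖Sd X u d c α‖ + ‖Sd X v d c α‖ := by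
  have e : Sd X (fun n => u n - v n) d c α = Sd X u d c α - Sd X v d c α := by
    unfold Sd
    rw [← sum_sub_distrib]
    refine sum_congr rfl fun n _ => ?_
    push_cast
    ring
  rw [e]
  exact norm_sub_le _ _

/-- weighted arithmetic-geometric inequality -/
lemma ES_min {z c l : ℝ} (hz : 0 ≤ z) (hl : 0 < l) : c * z ≤ (l * z + c ^ 2 * z / l) / 2 := by
  have h1 : 2 * c ≤ l + c ^ 2 / l := by
    have h2 : 0 ≤ (l - c) ^ 2 / l := by positivity
    have h3 : (l - c) ^ 2 / l = l + c ^ 2 / l - 2 * c := by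
      field_simp
      ring
    linarith
  have h2 : 2 * c * z ≤ (l + c ^ 2 / l) * z := mul_le_mul_of_nonneg_right h1 hz
  have h5 : c ^ 2 / l * z = c ^ 2 * z / l := by ring
  linarith

lemma ES_weight (K A : ℕ) : ∃ (A1 : ℕ) (L₀ : ℝ), ∀ X : ℕ, L₀ ≤ Real.log X → ∀ (D : ℕ) (S : ℕ → ℝ),
    D ≤ X → (∀ d ∈ Icc 1 D, 0 ≤ S d ∧ S d ≤ 2 * (X / d) * (2 * Real.log X)) →
    ∑ d ∈ Icc 1 D, S d ≤ 2 * (X / Real.log X ^ A1) →
    ∑ d ∈ Icc 1 D with Squarefree d, (K : ℝ) ^ d.primeFactors.card * S d ≤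
      X / Real.log X ^ A := by
  obtain ⟨C3, hC3, h3⟩ := AN9.sum_gg_le (K ^ 2)
  refine ⟨(A + K ^ 2 + 2) + A + 1, 1 + 2 * C3, fun X hX D S hDX hS hsum => ?_⟩
  set L : ℝ := Real.log X with hL
  have hL1 : 1 ≤ L := by linarith
  have hL0 : 0 < L := by linarith
  set J : ℕ := A + K ^ 2 + 2 with hJ
  have hJ0 : 0 < L ^ J := by positivity
  have hX0 : (0 : ℝ) < X := by
    rcases Nat.eq_zero_or_pos X with h | h
    · exfalso
      rw [hL, h] at hL1
      simp at hL1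
      linarith
    · exact_mod_cast h
  set T := (Icc 1 D).filter Squarefree with hT
  have hstep : ∀ d ∈ T, (K : ℝ) ^ d.primeFactors.card * S d ≤
      (L ^ J * S d + ((K : ℝ) ^ d.primeFactors.card) ^ 2 * S d / L ^ J) / 2 := fun d hd =>
    ES_min (hS d (mem_filter.1 hd).1).1 hJ0
  refine (sum_le_sum hstep).trans ?_
  rw [← sum_div, sum_add_distrib, ← mul_sum, ← sum_div]
  have e1 : ∑ d ∈ T, S d ≤ 2 * (X / L ^ (J + A + 1)) := by
    refine le_trans ?_ hsum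
    refine sum_le_sum_of_subset_of_nonneg (filter_subset _ _) fun d hd _ => (hS d hd).1
  have e2 : ∑ d ∈ T, ((K : ℝ) ^ d.primeFactors.card) ^ 2 * S d ≤ 4 * X * L * (C3 * L ^ (K ^ 2)) := by
    calc ∑ d ∈ T, ((K : ℝ) ^ d.primeFactors.card) ^ 2 * S d
        ≤ ∑ d ∈ T, 4 * X * L * AN9.gg (K ^ 2) d := by
          refine sum_le_sum fun d hd => ?_
          have hd1 : d ∈ Icc 1 D := (mem_filter.1 hd).1
          have hd0 : (0 : ℝ) < d := by exact_mod_cast (mem_Icc.1 hd1).1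
          have hφ : (0 : ℝ) < Nat.totient d := by
            exact_mod_cast Nat.totient_pos.mpr (mem_Icc.1 hd1).1
          have hφd : (Nat.totient d : ℝ) ≤ d := by exact_mod_cast Nat.totient_le d
          unfold AN9.gg
          push_cast
          calc ((K : ℝ) ^ d.primeFactors.card) ^ 2 * S d
              ≤ ((K : ℝ) ^ d.primeFactors.card) ^ 2 * (2 * (X / d) * (2 * L)) :=
                mul_le_mul_of_nonneg_left (hS d hd1).2 (by positivity)
            _ = 4 * X * L * (((K : ℝ) ^ 2) ^ d.primeFactors.card / d) := by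
                rw [← pow_mul, ← pow_mul, mul_comm d.primeFactors.card 2]
                ring
            _ ≤ 4 * X * L * (((K : ℝ) ^ 2) ^ d.primeFactors.card / Nat.totient d) := by
                refine mul_le_mul_of_nonneg_left ?_ (by positivity)
                exact div_le_div_of_nonneg_left (by positivity) hφ hφd
      _ = 4 * X * L * ∑ d ∈ T, AN9.gg (K ^ 2) d := by rw [mul_sum]
      _ ≤ 4 * X * L * (C3 * L ^ (K ^ 2)) := by
          refine mul_le_mul_of_nonneg_left ?_ (by positivity)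
          refine h3 L hL1 D ?_
          rw [hL, Real.exp_log hX0]
          exact_mod_cast hDX
  have e3 : L ^ J * ∑ d ∈ T, S d ≤ 2 * (X / L ^ (A + 1)) := by
    calc L ^ J * ∑ d ∈ T, S d ≤ L ^ J * (2 * (X / L ^ (J + A + 1))) :=
          mul_le_mul_of_nonneg_left e1 hJ0.le
      _ = 2 * (X / L ^ (A + 1)) := by
          rw [show J + A + 1 = J + (A + 1) by ring, pow_add L J (A + 1)]
          field_simp
  have e4 : (∑ d ∈ T, ((K : ℝ) ^ d.primeFactors.card) ^ 2 * S d) / L ^ J ≤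
      4 * C3 * (X / L ^ (A + 1)) := by
    calc (∑ d ∈ T, ((K : ℝ) ^ d.primeFactors.card) ^ 2 * S d) / L ^ J
        ≤ 4 * X * L * (C3 * L ^ (K ^ 2)) / L ^ J := div_le_div_of_nonneg_right e2 hJ0.le
      _ = 4 * C3 * (X / L ^ (A + 1)) := by
          rw [hJ, show A + K ^ 2 + 2 = (A + 1) + (K ^ 2) + 1 by ring, pow_add L (A + 1 + K ^ 2) 1,
            pow_add L (A + 1) (K ^ 2), pow_one]
          field_simp
  calc (L ^ J * ∑ d ∈ T, S d + (∑ d ∈ T, ((K : ℝ) ^ d.primeFactors.card) ^ 2 * S d) / L ^ J) / 2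
      ≤ (2 * (X / L ^ (A + 1)) + 4 * C3 * (X / L ^ (A + 1))) / 2 := by linarith
    _ = X / L ^ A * ((1 + 2 * C3) / L) := by
        rw [pow_succ]
        field_simp
        ring
    _ ≤ X / L ^ A * 1 := by
        refine mul_le_mul_of_nonneg_left ?_ (by positivity)
        rw [div_le_one hL0]
        exact hX
    _ = X / L ^ A := mul_one _

lemma ES_loglarge (M : ℝ) : ∃ X₀ : ℕ, ∀ X : ℕ, X₀ ≤ X → M ≤ Real.log X := by
  refine ⟨⌈Real.exp M⌉₊, fun X hX => ?_⟩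
  have h1 : Real.exp M ≤ X := (Nat.le_ceil _).trans (by exact_mod_cast hX)
  rwa [Real.le_log_iff_exp_le (lt_of_lt_of_le (Real.exp_pos _) h1)]

lemma ES_logpow (k : ℕ) : ∃ X₀ : ℕ, ∀ X : ℕ, X₀ ≤ X → Real.log X ^ k ≤ (X : ℝ) := by
  have h1 := (isLittleO_log_rpow_rpow_atTop (k : ℝ) (one_pos (α := ℝ))).bound one_pos
  obtain ⟨x₀, h⟩ := Filter.eventually_atTop.1 h1
  refine ⟨max ⌈x₀⌉₊ 1, fun X hX => ?_⟩
  have hX1 : (1 : ℝ) ≤ X := by exact_mod_cast (le_max_right _ _).trans hX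
  have hX0 : x₀ ≤ X := (Nat.le_ceil x₀).trans (by exact_mod_cast (le_max_left _ _).trans hX)
  have := h X hX0
  rwa [Real.norm_of_nonneg (Real.rpow_nonneg (Real.log_nonneg hX1) _), one_mul,
    Real.norm_of_nonneg (Real.rpow_nonneg (by linarith) _), Real.rpow_natCast, Real.rpow_one] at this

/-- size of the model -/
lemma ES_cw (hCW : CW_stmt) (C : ℕ) (hC : 1 ≤ C) : ∃ X₀ : ℕ, ∀ X : ℕ, X₀ ≤ X →
    0 ≤ cw (wX X C) ∧ cw (wX X C) ≤ Real.log X := by
  obtain ⟨C', hC', h⟩ := hCW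
  have h1 := (Real.isLittleO_log_id_atTop).bound (show (0 : ℝ) < 1 / (C' * C + 1) by positivity)
  obtain ⟨y₀, hy⟩ := Filter.eventually_atTop.1 h1
  obtain ⟨X₀, hX₀⟩ := ES_loglarge (max y₀ 2)
  refine ⟨X₀, fun X hX => ?_⟩
  set L : ℝ := Real.log X with hL
  have hL2 : 2 ≤ L := (le_max_right _ _).trans (hX₀ X hX)
  have hLy : y₀ ≤ L := (le_max_left _ _).trans (hX₀ X hX)
  have hlogL : 0 ≤ Real.log L := Real.log_nonneg (by linarith)
  have hw2 : 2 ≤ wX X C := by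
    unfold wX
    refine Nat.le_floor ?_
    calc ((2 : ℕ) : ℝ) ≤ L := by exact_mod_cast hL2
      _ = L ^ 1 := (pow_one _).symm
      _ ≤ L ^ C := pow_le_pow_right₀ (by linarith) hC
  obtain ⟨g1, g2⟩ := h (wX X C) hw2
  refine ⟨by linarith, g2.trans ?_⟩
  have hw0 : (0 : ℝ) < wX X C := by
    have : 0 < wX X C := by omega
    exact_mod_cast this
  have g3 : Real.log (wX X C) ≤ C * Real.log L := by
    rw [← Real.log_pow]
    refine Real.log_le_log hw0 ?_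
    unfold wX
    exact Nat.floor_le (by positivity)
  have g4 : Real.log L ≤ 1 / (C' * C + 1) * L := by
    have := hy L hLy
    rw [Real.norm_of_nonneg hlogL, id, Real.norm_of_nonneg (by linarith)] at this
    exact this
  calc C' * Real.log (wX X C) ≤ C' * (C * (1 / (C' * C + 1) * L)) := by
        refine mul_le_mul_of_nonneg_left (g3.trans ?_) hC'.le
        exact mul_le_mul_of_nonneg_left g4 (by positivity)
    _ = (C' * C / (C' * C + 1)) * L := by ring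
    _ ≤ 1 * L := by
        refine mul_le_mul_of_nonneg_right ?_ (by linarith)
        rw [div_le_one (by positivity)]
        linarith
    _ = L := one_mul _

theorem ES (hE7 : E7_stmt) (hE8 : E8_stmt) (hE9 : E9_stmt) (hCW : CW_stmt) : ES_stmt := by
  intro θ₁ θ₂ h1 h1' h2 h2' K A
  obtain ⟨A1, L₀, hw⟩ := ES_weight K A
  obtain ⟨B7, X7, h7⟩ := hE7 θ₁ h1 h1' A1
  obtain ⟨B8, h8⟩ := hE8 θ₁ h1 (by linarith) A1
  obtain ⟨B8', h8'⟩ := hE8 θ₂ h2 (by linarith) A1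
  set B : ℕ := max B7 (max B8 B8') with hB
  have hB7 : B7 ≤ B := le_max_left _ _
  have hB8 : B8 ≤ B := (le_max_left _ _).trans (le_max_right _ _)
  have hB8' : B8' ≤ B := (le_max_right _ _).trans (le_max_right _ _)
  obtain ⟨C₁, h9⟩ := hE9 θ₁ h1 (by linarith) A1 B
  obtain ⟨C₂, h9'⟩ := hE9 θ₂ h2 h2' A1 B
  refine ⟨max 1 (max C₁ C₂), fun C hC => ?_⟩
  have hC1 : 1 ≤ C := (le_max_left _ _).trans hC
  obtain ⟨X1, k1⟩ := h8 C hC1
  obtain ⟨X2, k2⟩ := h8' C hC1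
  obtain ⟨X3, k3⟩ := h9 C ((le_max_left _ _).trans ((le_max_right _ _).trans hC))
  obtain ⟨X4, k4⟩ := h9' C ((le_max_right _ _).trans ((le_max_right _ _).trans hC))
  obtain ⟨X5, k5⟩ := ES_cw hCW C hC1
  obtain ⟨X6, k6⟩ := ES_loglarge (max L₀ 1)
  obtain ⟨X8, k8⟩ := ES_logpow B
  refine ⟨X1 + X2 + X3 + X4 + X5 + X6 + X7 + X8 + 1, fun X hX α => ?_⟩
  have g1 : X1 ≤ X := by omega
  have g2 : X2 ≤ X := by omega
  have g3 : X3 ≤ X := by omega
  have g4 : X4 ≤ X := by omega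
  obtain ⟨g5, g5'⟩ := k5 X (by omega)
  have g6 := k6 X (by omega)
  have g7 : X7 ≤ X := by omega
  have g8 := k8 X (by omega)
  have gX : 1 ≤ X := by omega
  have gXr : (1 : ℝ) ≤ X := by exact_mod_cast gX
  have gX0 : (0 : ℝ) < X := by linarith
  set L : ℝ := Real.log X with hL
  have hL1 : 1 ≤ L := (le_max_right _ _).trans g6
  have hLL : L₀ ≤ L := (le_max_left _ _).trans g6
  have hL0 : 0 < L := by linarith
  -- sizes of the functions
  have hLw : ∀ n, |Lw (wX X C) n| ≤ L := by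
    intro n
    unfold Lw
    split_ifs
    · rw [abs_of_nonneg g5]
      exact g5'
    · rw [abs_zero]
      exact hL0.le
  have hΛ : ∀ n ∈ Ioc 0 X, |(vonMangoldt n : ℝ)| ≤ L := by
    intro n hn
    rw [mem_Ioc] at hn
    rw [abs_of_nonneg vonMangoldt_nonneg]
    exact vonMangoldt_le_log.trans
      (Real.log_le_log (by exact_mod_cast hn.1) (by exact_mod_cast hn.2))
  have hdiff : ∀ n ∈ Ioc 0 X, |vonMangoldt n - Lw (wX X C) n| ≤ 2 * L := by
    intro n hn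
    calc |vonMangoldt n - Lw (wX X C) n| ≤ |(vonMangoldt n : ℝ)| + |Lw (wX X C) n| := abs_sub _ _
      _ ≤ L + L := add_le_add (hΛ n hn) (hLw n)
      _ = 2 * L := by ring
  have hfl : ∀ θ : ℝ, θ < 1 → ⌊(X : ℝ) ^ θ⌋₊ ≤ X := by
    intro θ hθ
    have : (X : ℝ) ^ θ ≤ X := by
      calc (X : ℝ) ^ θ ≤ (X : ℝ) ^ (1 : ℝ) := Real.rpow_le_rpow_of_exponent_le gXr hθ.le
        _ = X := Real.rpow_one _
    exact_mod_cast (Nat.floor_le (Real.rpow_nonneg gX0.le θ)).trans this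
  -- from plain to weighted sums
  have W1 : ∀ θ : ℝ, θ < 1 → ∀ c : ℕ → ℕ, ∑ d ∈ Icc 1 ⌊(X : ℝ) ^ θ⌋₊,
      ‖Sd X (fun n => vonMangoldt n - Lw (wX X C) n) d (c d) α‖ ≤ 2 * (X / L ^ A1) →
      ∑ d ∈ Icc 1 ⌊(X : ℝ) ^ θ⌋₊ with Squarefree d, (K : ℝ) ^ d.primeFactors.card *
        ‖Sd X (fun n => vonMangoldt n - Lw (wX X C) n) d (c d) α‖ ≤ X / L ^ A := by
    intro θ hθ c hs
    refine hw X hLL _ (fun d => ‖Sd X (fun n => vonMangoldt n - Lw (wX X C) n) d (c d) α‖)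
      (hfl θ hθ) (fun d hd => ⟨norm_nonneg _, ?_⟩) hs
    rw [mem_Icc] at hd
    exact ES_triv X _ d (c d) α _ hd.1 (hd.2.trans (hfl θ hθ)) (by positivity) hdiff
  have W2 : ∀ θ : ℝ, θ < 1 → ∀ c : ℕ → ℕ, ∑ d ∈ Icc 1 ⌊(X : ℝ) ^ θ⌋₊,
      ‖Sd X (Lw (wX X C)) d (c d) α‖ ≤ 2 * (X / L ^ A1) →
      ∑ d ∈ Icc 1 ⌊(X : ℝ) ^ θ⌋₊ with Squarefree d, (K : ℝ) ^ d.primeFactors.card *
        ‖Sd X (Lw (wX X C)) d (c d) α‖ ≤ X / L ^ A := by
    intro θ hθ c hs
    refine hw X hLL _ (fun d => ‖Sd X (Lw (wX X C)) d (c d) α‖)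
      (hfl θ hθ) (fun d hd => ⟨norm_nonneg _, ?_⟩) hs
    rw [mem_Icc] at hd
    exact ES_triv X _ d (c d) α _ hd.1 (hd.2.trans (hfl θ hθ)) (by positivity)
      (fun n _ => (hLw n).trans (by linarith))
  -- Dirichlet
  set Y : ℕ := ⌊X / L ^ B⌋₊ with hY
  have hLB : 0 < L ^ B := by positivity
  have hY0 : 0 < Y := by
    refine Nat.floor_pos.2 ?_
    rw [le_div_iff₀ hLB, one_mul]
    exact g8
  obtain ⟨r, hr1, hr2⟩ := Real.exists_rat_abs_sub_le_and_den_le α hY0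
  set q : ℕ := r.den with hq
  have hq0 : 0 < q := r.den_pos
  have hq0r : (0 : ℝ) < q := by exact_mod_cast hq0
  have hcop : IsCoprime r.num (q : ℤ) := by
    rw [Int.isCoprime_iff_nat_coprime]
    simpa using r.reduced
  have hrr : (r : ℝ) = (r.num : ℝ) / q := by
    rw [hq]
    exact_mod_cast (Rat.num_div_den r).symm
  rw [hrr] at hr1
  have hqY : (q : ℝ) ≤ Y := by exact_mod_cast hr2
  have hYX : (Y : ℝ) ≤ X / L ^ B := Nat.floor_le (by positivity)
  have hYX' : X / L ^ B ≤ (Y : ℝ) + 1 := (Nat.lt_floor_add_one _).le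
  have hapx : |α - r.num / q| ≤ 1 / (q : ℝ) ^ 2 := by
    refine hr1.trans (one_div_le_one_div_of_le (by positivity) ?_)
    rw [sq]
    exact mul_le_mul_of_nonneg_right (by linarith) hq0r.le
  have hapx2 : |α - r.num / q| ≤ L ^ B / X := by
    refine hr1.trans ?_
    rw [div_le_div_iff₀ (by positivity) gX0, one_mul]
    calc (X : ℝ) = L ^ B * (X / L ^ B) := by field_simp
      _ ≤ L ^ B * ((Y + 1) * q) := by
        refine mul_le_mul_of_nonneg_left (hYX'.trans ?_) hLB.le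
        exact le_mul_of_one_le_right (by positivity) (by exact_mod_cast hq0)
  have htwo : X / L ^ A1 ≤ 2 * (X / L ^ A1) := by
    have : 0 ≤ X / L ^ A1 := by positivity
    linarith
  rcases le_or_gt (q : ℝ) (L ^ B) with hqB | hqB
  · refine ⟨fun c hc => W1 θ₁ (by linarith) c ?_, Or.inl fun c hc => W1 θ₂ (by linarith) c ?_⟩
    · exact (k3 X g3 α r.num q hq0 hqB hcop hapx2 c hc).trans htwo
    · exact (k4 X g4 α r.num q hq0 hqB hcop hapx2 c hc).trans htwo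
  · have hlow : ∀ B' ≤ B, L ^ B' ≤ q := fun B' hB' =>
      (pow_le_pow_right₀ hL1 hB').trans hqB.le
    have hup : ∀ B' ≤ B, (q : ℝ) ≤ X / L ^ B' := fun B' hB' =>
      (hqY.trans hYX).trans (div_le_div_of_nonneg_left gX0.le (by positivity)
        (pow_le_pow_right₀ hL1 hB'))
    refine ⟨fun c hc => W1 θ₁ (by linarith) c ?_, Or.inr fun c hc => W2 θ₂ (by linarith) c ?_⟩
    · calc ∑ d ∈ Icc 1 ⌊(X : ℝ) ^ θ₁⌋₊,
            ‖Sd X (fun n => vonMangoldt n - Lw (wX X C) n) d (c d) α‖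
          ≤ ∑ d ∈ Icc 1 ⌊(X : ℝ) ^ θ₁⌋₊, (‖Sd X (fun n => vonMangoldt n) d (c d) α‖ +
              ‖Sd X (Lw (wX X C)) d (c d) α‖) := sum_le_sum fun d _ => ES_sub X _ _ d (c d) α
        _ ≤ X / L ^ A1 + X / L ^ A1 := by
            rw [sum_add_distrib]
            exact add_le_add
              (h7 X g7 α r.num q (hlow B7 hB7) (hup B7 hB7) hcop hapx c hc)
              (k1 X g1 α r.num q (hlow B8 hB8) (hup B8 hB8) hcop hapx c hc)
        _ = 2 * (X / L ^ A1) := by ring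
    · exact (k2 X g2 α r.num q (hlow B8' hB8') (hup B8' hB8') hcop hapx c hc).trans htwo

end GD
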