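import Pool.Agent.helper8.GD.Spec

/-!
# GD, PW: pointwise consequences of a positive weight
-/

set_option autoImplicit false

namespace GD

open Finset ArithmeticFunction

lemma PW_dv {l n : ℕ} (hn : 1 ≤ n) (h : l ∣ 8 * n ^ 2 - 1) : dv l n := by
  have h1 : 1 ≤ 8 * n ^ 2 := by nlinarith
  exact ((Nat.modEq_iff_dvd' h1).2 h).symm

theorem PW (hRT : RT_stmt) : PW_stmt := by
  intro υ T δ hυ hT hδ hδυ hlt
  set η : ℝ := 11 - (T + 2 / υ) with hη
  have hη0 : 0 < η := by rw [hη]; linarith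
  set M₀ : ℝ := max 1 (Real.log 8 / (υ * η) + 1) with hM₀
  refine ⟨⌈Real.exp M₀⌉₊, fun X hX w n hn hsh hV => ?_⟩
  rw [mem_Icc] at hn
  have hX1 : Real.exp M₀ ≤ X := (Nat.le_ceil _).trans (by exact_mod_cast hX)
  have hX0 : (0 : ℝ) < X := (Real.exp_pos _).trans_le hX1
  set L : ℝ := Real.log X with hL
  have hLM : M₀ ≤ L := by
    rw [hL, Real.le_log_iff_exp_le hX0]
    exact hX1
  have hL1 : 1 ≤ L := (le_max_left _ _).trans hLM
  have hL0 : 0 < L := by linarith
  have hL2 : Real.log 8 / (υ * η) < L := by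
    have := (le_max_right _ _).trans hLM
    linarith
  have hXr : (1 : ℝ) ≤ X := by
    have : (1 : ℝ) ≤ Real.exp M₀ := Real.one_le_exp (by
      have := le_max_left (1 : ℝ) (Real.log 8 / (υ * η) + 1)
      linarith)
    linarith
  set M : ℕ := 8 * n ^ 2 - 1 with hM
  have hM0 : M ≠ 0 := by
    have : 1 ≤ n ^ 2 := Nat.one_le_pow _ _ (by omega)
    omega
  -- primes dividing `M`
  have hprime : ∀ l : ℕ, l.Prime → l ∣ M → w < l ∧ (l % 8 = 1 ∨ l % 8 = 7) ∧ dv l n := by
    intro l hl hd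
    have h1 := PW_dv hn.1 hd
    refine ⟨?_, hRT.2.1 l n hl h1, h1⟩
    by_contra hw
    have h2 : ∀ l ∈ Ps w, ¬ dv l n := by
      by_contra hc
      unfold sh at hsh
      rw [if_neg hc] at hsh
      exact zero_ne_one hsh
    refine h2 l ?_ h1
    unfold Ps
    rw [mem_filter, mem_Icc]
    exact ⟨⟨hl.one_lt.le, by omega⟩, hl⟩
  have hAt : ∀ l : ℕ, l.Prime → l ∣ M → (l : ℝ) ≤ (X : ℝ) ^ υ → l ∈ At (Qs w ((X : ℝ) ^ υ)) n := by
    intro l hl hd hle
    obtain ⟨h1, h2, h3⟩ := hprime l hl hd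
    unfold At Qs
    rw [mem_filter, mem_filter, mem_Icc]
    exact ⟨⟨⟨hl.one_lt.le, Nat.le_floor hle⟩, hl, h1, h2⟩, h3⟩
  have hterm : ∀ l ∈ At (Qs w ((X : ℝ) ^ υ)) n, 0 ≤ 1 - Real.log l / (υ * L) := by
    intro l hl
    unfold At Qs at hl
    rw [mem_filter, mem_filter, mem_Icc] at hl
    have hl0 : (0 : ℝ) < l := by exact_mod_cast hl.1.1.1
    have h1 : (l : ℝ) ≤ (X : ℝ) ^ υ :=
      (Nat.le_floor_iff (Real.rpow_nonneg hX0.le _)).1 hl.1.1.2
    have h2 : Real.log l ≤ υ * L := by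
      have := Real.log_le_log hl0 h1
      rwa [Real.log_rpow hX0] at this
    have h3 : Real.log l / (υ * L) ≤ 1 := (div_le_one (by positivity)).2 h2
    linarith
  have hvv : ∀ l ∈ At (Qs w ((X : ℝ) ^ υ)) n, 1 - Real.log l / (υ * L) ≤ vv υ T δ X l := by
    intro l _
    unfold vv
    split_ifs <;> linarith
  have hvv0 : ∀ l ∈ At (Qs w ((X : ℝ) ^ υ)) n, 0 ≤ vv υ T δ X l := fun l hl =>
    (hterm l hl).trans (hvv l hl)
  constructor
  · intro l hl hd
    by_contra hle
    rw [not_lt] at hle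
    have h1 : (l : ℝ) ≤ (X : ℝ) ^ υ :=
      hle.trans (Real.rpow_le_rpow_of_exponent_le hXr hδυ)
    have h2 := hAt l hl hd h1
    have h3 : vv υ T δ X l ≤ Vv (vv υ T δ X) (At (Qs w ((X : ℝ) ^ υ)) n) :=
      single_le_sum hvv0 h2
    have h4 : T ≤ vv υ T δ X l := by
      have := hterm l h2
      unfold vv
      rw [if_pos hle]
      linarith
    linarith
  · have hsum : ∑ l ∈ M.primeFactors, (1 - Real.log l / (υ * L)) < T := by
      refine lt_of_le_of_lt ?_ hV
      unfold Vv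
      rw [← sum_filter_add_sum_filter_not M.primeFactors (fun l : ℕ => (l : ℝ) ≤ (X : ℝ) ^ υ)]
      have h1 : ∑ l ∈ M.primeFactors.filter (fun l : ℕ => (l : ℝ) ≤ (X : ℝ) ^ υ), (1 - Real.log l / (υ * L)) ≤
          ∑ l ∈ At (Qs w ((X : ℝ) ^ υ)) n, vv υ T δ X l := by
        refine (sum_le_sum_of_subset_of_nonneg ?_ fun l hl _ => hterm l hl).trans
          (sum_le_sum hvv)
        intro l hl
        rw [mem_filter] at hl
        exact hAt l (Nat.prime_of_mem_primeFactors hl.1) (Nat.dvd_of_mem_primeFactors hl.1) hl.2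
      have h2 : ∑ l ∈ M.primeFactors.filter (fun l : ℕ => ¬ (l : ℝ) ≤ (X : ℝ) ^ υ),
          (1 - Real.log l / (υ * L)) ≤ 0 := by
        refine sum_nonpos fun l hl => ?_
        rw [mem_filter, not_le] at hl
        have h3 : υ * L ≤ Real.log l := by
          have := Real.log_le_log (Real.rpow_pos_of_pos hX0 υ) hl.2.le
          rwa [Real.log_rpow hX0] at this
        have h4 : 1 ≤ Real.log l / (υ * L) := (one_le_div (by positivity)).2 h3
        linarith
      linarith
    have hlog : ∑ l ∈ M.primeFactors, Real.log l ≤ Real.log 8 + 2 * L := by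
      rw [← Real.log_prod (fun l hl => by
        have := (Nat.prime_of_mem_primeFactors hl).pos
        positivity)]
      have h1 : ((∏ l ∈ M.primeFactors, l : ℕ) : ℝ) ≤ M := by
        exact_mod_cast Nat.le_of_dvd (Nat.pos_of_ne_zero hM0) (Nat.prod_primeFactors_dvd M)
      have h2 : (M : ℝ) ≤ 8 * (X : ℝ) ^ 2 := by
        have h3 : M ≤ 8 * X ^ 2 := by
          have : n ^ 2 ≤ X ^ 2 := Nat.pow_le_pow_left hn.2 2
          omega
        exact_mod_cast h3
      have h4 : (0 : ℝ) < ∏ l ∈ M.primeFactors, (l : ℝ) := prod_pos fun l hl => by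
        exact_mod_cast (Nat.prime_of_mem_primeFactors hl).pos
      push_cast at h1
      calc Real.log (∏ l ∈ M.primeFactors, (l : ℝ)) ≤ Real.log (8 * (X : ℝ) ^ 2) :=
            Real.log_le_log h4 (h1.trans h2)
        _ = Real.log 8 + 2 * L := by
            rw [Real.log_mul (by norm_num) (by positivity), Real.log_pow]
            push_cast
            ring
    rw [sum_sub_distrib, sum_const, nsmul_eq_mul, mul_one, ← sum_div] at hsum
    have h5 : (∑ l ∈ M.primeFactors, Real.log l) / (υ * L) ≤ (Real.log 8 + 2 * L) / (υ * L) :=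
      div_le_div_of_nonneg_right hlog (by positivity)
    have h6 : (Real.log 8 + 2 * L) / (υ * L) = Real.log 8 / (υ * L) + 2 / υ := by
      field_simp
    have h7 : Real.log 8 / (υ * L) < η := by
      rw [div_lt_iff₀ (by positivity)]
      rw [div_lt_iff₀ (by positivity)] at hL2
      linarith
    have h8 : (#M.primeFactors : ℝ) < 11 := by linarith
    have h9 : #M.primeFactors < 11 := by exact_mod_cast h8
    omega

end GD
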